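import Pool.Agent.Helper55.AR.Defs

/-! Counting characteristic functions: the number of traces of good sets (piece C). -/

set_option autoImplicit false

open Cardinal Ordinal Set Filter Helper23.Pcf Helper55.CP

universe u

namespace Helper55.AR

/-- C -/
theorem mk_good_le {T : Sys.{u}} {e e' : Ordinal.{u} → Ordinal.{u} → Ordinal.{u}}
    {lams : Cardinal.{u}} (hl : ∀ q, T.lam q ≤ lams) (hμ : T.μ ≤ lams) (o : Ordinal.{u})
    (hu : ∀ M M', Good T e e' M → Good T e e' M' →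
      (∀ i, chi M (T.c i).ord = chi M' (T.c i).ord) → M ∩ Iio o = M' ∩ Iio o) :
    #{Z | ∃ M, Good T e e' M ∧ Z = M ∩ Iio o} ≤ Cardinal.lift.{u+1} lams := by
  classical
  have h0 : ℵ₀ ≤ lams :=
    T.hν0.le.trans ((Order.le_succ _).trans ((Order.le_succ _).trans (T.hνμ.trans hμ)))
  have hkey : ∀ Z : {Z | ∃ M, Good T e e' M ∧ Z = M ∩ Iio o},
      ∃ (M : Set Ordinal.{u}) (t : Finset T.Q) (δ : T.Q → Iio lams.ord), Good T e e' M ∧
        Z.1 = M ∩ Iio o ∧ (∀ i, ∀ q ∈ t, T.f q (δ q).1 i ≤ chi M (T.c i).ord) ∧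
        ∀ i, ∃ q ∈ t, chi M (T.c i).ord = T.f q (δ q).1 i := by
    rintro ⟨Z, M, hM, hZ⟩
    obtain ⟨t, δ, hδ, h1, h2⟩ := hM.fin
    exact ⟨M, t, fun q => ⟨δ q, (hδ q).trans_le (Cardinal.ord_le_ord.2 (hl q))⟩, hM, hZ, h1, h2⟩
  choose M t δ hM hZ h1 h2 using hkey
  let s : {Z | ∃ M, Good T e e' M ∧ Z = M ∩ Iio o} → Finset (T.Q × Iio lams.ord) :=
    fun Z => (t Z).image fun q => (q, δ Z q)
  have hle : ∀ Z Z', s Z = s Z' → ∀ i, chi (M Z) (T.c i).ord ≤ chi (M Z') (T.c i).ord := by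
    intro Z Z' hs i
    obtain ⟨q, hq, he⟩ := h2 Z i
    have h3 : (q, δ Z q) ∈ s Z' := by
      rw [← hs]
      exact Finset.mem_image_of_mem _ hq
    obtain ⟨q', hq', he'⟩ := Finset.mem_image.1 h3
    have h4 : q' = q := congrArg Prod.fst he'
    subst h4
    have h5 : δ Z' q' = δ Z q' := congrArg Prod.snd he'
    rw [he, ← h5]
    exact h1 Z' i q' hq'
  have hinj : Function.Injective s := by
    intro Z Z' hs
    apply Subtype.ext
    rw [hZ Z, hZ Z']
    exact hu _ _ (hM Z) (hM Z') fun i => le_antisymm (hle Z Z' hs i) (hle Z' Z hs.symm i)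
  refine (Cardinal.mk_le_of_injective hinj).trans ?_
  have h0' : ℵ₀ ≤ Cardinal.lift.{u+1} lams := by
    rw [Cardinal.aleph0_le_lift]
    exact h0
  have hK : #(T.Q × Iio lams.ord) ≤ Cardinal.lift.{u+1} lams := by
    rw [Cardinal.mk_prod, Cardinal.mk_Iio_ordinal, Cardinal.card_ord, Cardinal.lift_lift]
    have h3 : Cardinal.lift.{u+1} #T.Q ≤ Cardinal.lift.{u+1} lams :=
      Cardinal.lift_le.2 (T.hQ.trans hμ)
    refine (mul_le_mul' h3 le_rfl).trans ?_
    exact (Cardinal.mul_eq_self h0').le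
  rcases finite_or_infinite (T.Q × Iio lams.ord) with hf | hf
  · have : Finite (Finset (T.Q × Iio lams.ord)) := inferInstance
    exact (Cardinal.lt_aleph0_of_finite _).le.trans h0'
  · rw [Cardinal.mk_finset_of_infinite]
    exact hK

end Helper55.AR
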