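import Pool.Agent.Helper55.AR.Defs

/-! Counting characteristic functions: covers (piece F). -/

set_option autoImplicit false

open Cardinal Ordinal Set Filter Helper23.Pcf Helper55.CP

universe u

namespace Helper55.AR

/-- F -/
theorem power_le_of_cover {A lams μ τ : Cardinal.{u}} (hτ : ℵ₀ ≤ τ)
    (F : Set (Set Ordinal.{u})) (hF : #F ≤ Cardinal.lift.{u+1} lams)
    (hsm : ∀ Z ∈ F, #Z ≤ Cardinal.lift.{u+1} μ)
    (hcov : ∀ X : Set Ordinal.{u}, X ⊆ Iio A.ord → #X ≤ Cardinal.lift.{u+1} τ →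
      ∃ Z ∈ F, X ⊆ Z) : A ^ τ ≤ lams * μ ^ τ := by
  classical
  have hI : #(Iio τ.ord) = Cardinal.lift.{u+1} τ := by
    rw [Cardinal.mk_Iio_ordinal, Cardinal.card_ord]
  have hA : #(Iio A.ord) = Cardinal.lift.{u+1} A := by
    rw [Cardinal.mk_Iio_ordinal, Cardinal.card_ord]
  rw [← Cardinal.lift_le.{u+1}, Cardinal.lift_mul, Cardinal.lift_power, Cardinal.lift_power,
    ← hI, ← hA, Cardinal.power_def]
  have hkey : ∀ g : Iio τ.ord → Iio A.ord, ∃ Z : F, ∀ i, (g i).1 ∈ Z.1 := by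
    intro g
    obtain ⟨Z, hZ, hX⟩ := hcov (Set.range fun i => (g i).1)
      (by rintro _ ⟨i, rfl⟩; exact (g i).2)
      (by rw [← hI]; exact Cardinal.mk_range_le)
    exact ⟨⟨Z, hZ⟩, fun i => hX ⟨i, rfl⟩⟩
  choose Z hZ using hkey
  let Φ : (Iio τ.ord → Iio A.ord) → Σ Z : F, (Iio τ.ord → Z.1) :=
    fun g => ⟨Z g, fun i => ⟨(g i).1, hZ g i⟩⟩
  have hinj : Function.Injective Φ := by
    intro g g' h
    have h3 : ∀ p q : (Σ Z : F, (Iio τ.ord → Z.1)), p = q → ∀ i, (p.2 i).1 = (q.2 i).1 := by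
      rintro p _ rfl i
      rfl
    funext i
    exact Subtype.ext (h3 _ _ h i)
  refine (Cardinal.mk_le_of_injective hinj).trans ?_
  rw [Cardinal.mk_sigma]
  refine (Cardinal.sum_le_sum _ (fun _ => Cardinal.lift.{u+1} μ ^ #(Iio τ.ord))
    fun Z => ?_).trans ?_
  · rw [← Cardinal.power_def]
    exact Cardinal.power_le_power_right (hsm Z.1 Z.2)
  · rw [Cardinal.sum_const']
    exact mul_le_mul' hF le_rfl

end Helper55.AR
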